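import Pool.Agent.EGF.StmtsV

/-!
Squad EGF, block V, row CNV (the four densities of a pair of spots).
-/

set_option autoImplicit false

open Finset

namespace Pool.Agent.EGF.H7

section cnv

variable {X Y : Type} [DecidableEq X] [DecidableEq Y]

theorem cnv_sum (A : Finset X) (B : Finset Y) (F : Finset (X × Y)) (u : X → ℝ) (v : Y → ℝ) :
    ∑ p ∈ (A ×ˢ B) ∩ F, u p.1 * v p.2 = ∑ a ∈ A, u a * ∑ b ∈ B, v b * ind F a b := by
  have h1 : ∑ p ∈ (A ×ˢ B) ∩ F, u p.1 * v p.2 =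
      ∑ p ∈ A ×ˢ B, u p.1 * (v p.2 * ind F p.1 p.2) := by
    rw [← Finset.filter_mem_eq_inter, Finset.sum_filter]
    apply Finset.sum_congr rfl
    intro p _
    unfold ind
    by_cases hp : p ∈ F
    · rw [if_pos hp, if_pos (show (p.1, p.2) ∈ F from hp), mul_one]
    · rw [if_neg hp, if_neg (show ¬ (p.1, p.2) ∈ F from hp), mul_zero, mul_zero]
  rw [h1, Finset.sum_product]
  apply Finset.sum_congr rfl
  intro a _
  rw [Finset.mul_sum]

theorem cnv_w0 (A X0 : Finset X) (T : ℕ) (hT : 1 ≤ T) (hX : X0 ⊆ A) (g : X → ℝ) :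
    (∑ a ∈ A, wt0 X0 T a * g a) * (T : ℝ) = ∑ x ∈ X0, g x := by
  have hT' : (T : ℝ) ≠ 0 := by
    have : 0 < T := hT
    positivity
  rw [Finset.sum_mul]
  have h1 : ∀ a ∈ A, wt0 X0 T a * g a * (T : ℝ) = if a ∈ X0 then g a else 0 := by
    intro a _
    unfold wt0
    by_cases ha : a ∈ X0
    · rw [if_pos ha, if_pos ha]
      field_simp
    · rw [if_neg ha, if_neg ha]
      ring
  rw [Finset.sum_congr rfl h1, ← Finset.sum_filter, Finset.filter_mem_eq_inter,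
    Finset.inter_eq_right.2 hX]

theorem cnv_w1 (A X0 : Finset X) (R : X → Finset X) (T : ℕ) (hT : 1 ≤ T)
    (hR : ∀ x ∈ X0, R x ⊆ A) (g : X → ℝ) :
    (∑ a ∈ A, wt1 X0 R T a * g a) * (T : ℝ) ^ 2 = ∑ x ∈ X0, ∑ w ∈ R x, g w := by
  have hT' : (T : ℝ) ≠ 0 := by
    have : 0 < T := hT
    positivity
  rw [Finset.sum_mul]
  have h1 : ∀ a ∈ A, wt1 X0 R T a * g a * (T : ℝ) ^ 2 =
      ∑ x ∈ X0, if a ∈ R x then g a else 0 := by
    intro a _
    unfold wt1
    rw [← Finset.sum_filter, Finset.sum_const, nsmul_eq_mul]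
    field_simp
  rw [Finset.sum_congr rfl h1, Finset.sum_comm]
  apply Finset.sum_congr rfl
  intro x hx
  rw [← Finset.sum_filter, Finset.filter_mem_eq_inter, Finset.inter_eq_right.2 (hR x hx)]

end cnv

/-- **Row CNV** -/
theorem cnv : CnvStmt := by
  intro X Y _ _ A X0 B Y0 R S F T hT hX hR hY hS
  refine ⟨?_, ?_, ?_, ?_⟩
  · rw [cnv_sum, pow_two, ← mul_assoc, cnv_w0 A X0 T hT hX, Finset.sum_mul]
    apply Finset.sum_congr rfl
    intro x _
    exact cnv_w0 B Y0 T hT hY _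
  · rw [cnv_sum, pow_succ, ← mul_assoc, cnv_w1 A X0 R T hT hR, Finset.sum_mul]
    apply Finset.sum_congr rfl
    intro x _
    rw [Finset.sum_mul, Finset.sum_comm]
    apply Finset.sum_congr rfl
    intro w _
    exact cnv_w0 B Y0 T hT hY _
  · rw [cnv_sum, pow_succ', ← mul_assoc, cnv_w0 A X0 T hT hX, Finset.sum_mul]
    apply Finset.sum_congr rfl
    intro x _
    exact cnv_w1 B Y0 S T hT hS _
  · rw [cnv_sum, show (T : ℝ) ^ 4 = (T : ℝ) ^ 2 * (T : ℝ) ^ 2 by ring, ← mul_assoc,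
      cnv_w1 A X0 R T hT hR, Finset.sum_mul]
    apply Finset.sum_congr rfl
    intro x _
    rw [Finset.sum_mul, Finset.sum_comm]
    apply Finset.sum_congr rfl
    intro w _
    exact cnv_w1 B Y0 S T hT hS _

end Pool.Agent.EGF.H7
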